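import Mathlib

/-! # Weighted sums of random signs: recursion, reflection, small balls -/

set_option autoImplicit false

namespace Pool.Agent.X100.KH

/-- expectation of `f (x + ∑ ± b)` over the list of weights -/
noncomputable def Ex : List ℝ → (ℝ → ℝ) → ℝ → ℝ
  | [], f, x => f x
  | (b :: l), f, x => (Ex l f (x + b) + Ex l f (x - b)) / 2

theorem Ex_cons (b : ℝ) (l : List ℝ) (f : ℝ → ℝ) (x : ℝ) :
    Ex (b :: l) f x = (Ex l f (x + b) + Ex l f (x - b)) / 2 := rfl

theorem Ex_mono (l : List ℝ) (f g : ℝ → ℝ) (h : ∀ y, f y ≤ g y) (x : ℝ) :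
    Ex l f x ≤ Ex l g x := by
  induction l generalizing x with
  | nil => exact h x
  | cons b l ih =>
    rw [Ex_cons, Ex_cons]
    have h1 := ih (x + b)
    have h2 := ih (x - b)
    linarith

theorem Ex_add (l : List ℝ) (f g : ℝ → ℝ) (x : ℝ) :
    Ex l (fun y => f y + g y) x = Ex l f x + Ex l g x := by
  induction l generalizing x with
  | nil => rfl
  | cons b l ih =>
    rw [Ex_cons, Ex_cons, Ex_cons, ih, ih]
    ring

theorem Ex_smul (l : List ℝ) (c : ℝ) (f : ℝ → ℝ) (x : ℝ) :
    Ex l (fun y => c * f y) x = c * Ex l f x := by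
  induction l generalizing x with
  | nil => rfl
  | cons b l ih =>
    rw [Ex_cons, Ex_cons, ih, ih]
    ring

theorem Ex_const (l : List ℝ) (c : ℝ) (x : ℝ) : Ex l (fun _ => c) x = c := by
  induction l generalizing x with
  | nil => rfl
  | cons b l ih =>
    rw [Ex_cons, ih, ih]
    ring

theorem Ex_shift (l : List ℝ) (f : ℝ → ℝ) (x c : ℝ) :
    Ex l f (x + c) = Ex l (fun y => f (y + c)) x := by
  induction l generalizing x with
  | nil => rfl
  | cons b l ih =>
    rw [Ex_cons, Ex_cons, ← ih, ← ih]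
    have h1 : x + c + b = x + b + c := by ring
    have h2 : x + c - b = x - b + c := by ring
    rw [h1, h2]

theorem Ex_refl (l : List ℝ) (f : ℝ → ℝ) (x c : ℝ) :
    Ex l f x = Ex l (fun y => f (c - y)) (c - x) := by
  induction l generalizing x with
  | nil => simp [Ex]
  | cons b l ih =>
    rw [Ex_cons, Ex_cons, ih (x + b), ih (x - b)]
    have h1 : c - (x + b) = c - x - b := by ring
    have h2 : c - (x - b) = c - x + b := by ring
    rw [h1, h2]
    ring

theorem Ex_perm {l l' : List ℝ} (h : l.Perm l') (f : ℝ → ℝ) (x : ℝ) :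
    Ex l f x = Ex l' f x := by
  induction h generalizing x with
  | nil => rfl
  | cons a _ ih => rw [Ex_cons, Ex_cons, ih, ih]
  | swap a b l =>
    simp only [Ex_cons]
    have h1 : x + b + a = x + a + b := by ring
    have h2 : x + b - a = x - a + b := by ring
    have h3 : x - b + a = x + a - b := by ring
    have h4 : x - b - a = x - a - b := by ring
    rw [h1, h2, h3, h4]
    ring
  | trans _ _ ih1 ih2 => rw [ih1, ih2]

theorem Ex_abs (l : List ℝ) (f : ℝ → ℝ) (x : ℝ) :
    Ex (l.map (fun b => |b|)) f x = Ex l f x := by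
  induction l generalizing x with
  | nil => rfl
  | cons b l ih =>
    rw [List.map_cons, Ex_cons, Ex_cons, ih, ih]
    rcases abs_choice b with h | h
    · rw [h]
    · rw [h]
      have h1 : x + -b = x - b := by ring
      have h2 : x - -b = x + b := by ring
      rw [h1, h2]
      ring

theorem Ex_sq (l : List ℝ) (x : ℝ) :
    Ex l (fun y => y ^ 2) x = x ^ 2 + (l.map (fun b => b ^ 2)).sum := by
  induction l generalizing x with
  | nil => simp [Ex]
  | cons b l ih =>
    rw [Ex_cons, ih, ih, List.map_cons, List.sum_cons]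
    ring

open Classical in
/-- indicator of an interval -/
noncomputable def ind (p q : ℝ) (y : ℝ) : ℝ := if p ≤ y ∧ y ≤ q then 1 else 0

theorem ind_nonneg (p q y : ℝ) : 0 ≤ ind p q y := by
  unfold ind; split_ifs <;> norm_num

theorem ind_le_one (p q y : ℝ) : ind p q y ≤ 1 := by
  unfold ind; split_ifs <;> norm_num

theorem ind_one {p q y : ℝ} (h1 : p ≤ y) (h2 : y ≤ q) : ind p q y = 1 := by
  unfold ind; rw [if_pos ⟨h1, h2⟩]

theorem ind_mono {p q p' q' : ℝ} (h1 : p' ≤ p) (h2 : q ≤ q') (y : ℝ) :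
    ind p q y ≤ ind p' q' y := by
  unfold ind
  split_ifs with h h'
  · exact le_refl _
  · exact absurd ⟨h1.trans h.1, h.2.trans h2⟩ h'
  · norm_num
  · norm_num

theorem ind_refl (p q c y : ℝ) : ind p q (c - y) = ind (c - q) (c - p) y := by
  unfold ind
  have : (p ≤ c - y ∧ c - y ≤ q) ↔ (c - q ≤ y ∧ y ≤ c - p) := by
    constructor
    · rintro ⟨h1, h2⟩; constructor <;> linarith
    · rintro ⟨h1, h2⟩; constructor <;> linarith
  simp only [this]

/-- reflection in an interval which the walk cannot jump over -/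
theorem reflection (lo hi p q : ℝ) (hlo : lo ≤ p) (l : List ℝ)
    (hl : ∀ b ∈ l, 0 ≤ b ∧ b ≤ hi - lo) (x : ℝ) (hx : x ≤ hi) :
    Ex l (ind p q) x ≤ Ex l (ind (2 * lo - q) (2 * hi - p)) x := by
  induction l generalizing x with
  | nil =>
    by_cases hx2 : lo ≤ x
    · have := Ex_refl [] (ind p q) x (2 * x)
      rw [this]
      have h2 : 2 * x - x = x := by ring
      rw [h2]
      refine Ex_mono _ _ _ (fun y => ?_) x
      rw [ind_refl]
      exact ind_mono (by linarith) (by linarith) y
    · show ind p q x ≤ ind _ _ x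
      have : ind p q x = 0 := by
        unfold ind
        rw [if_neg]
        rintro ⟨h, _⟩
        exact hx2 (hlo.trans h)
      rw [this]
      exact ind_nonneg _ _ _
  | cons b l ih =>
    by_cases hx2 : lo ≤ x
    · have := Ex_refl (b :: l) (ind p q) x (2 * x)
      rw [this]
      have h2 : 2 * x - x = x := by ring
      rw [h2]
      refine Ex_mono _ _ _ (fun y => ?_) x
      rw [ind_refl]
      exact ind_mono (by linarith) (by linarith) y
    · push Not at hx2
      have hb := hl b (by simp)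
      have hl' : ∀ b ∈ l, 0 ≤ b ∧ b ≤ hi - lo := fun b' hb' => hl b' (by simp [hb'])
      rw [Ex_cons, Ex_cons]
      have h1 := ih hl' (x + b) (by linarith [hb.2])
      have h2 := ih hl' (x - b) (by linarith [hb.1])
      linarith

theorem cover (l : List ℝ) (m b : ℝ) (hb : 0 ≤ b) (hbm : b ≤ m)
    (hl : ∀ x ∈ l, 0 ≤ x ∧ x ≤ b) (J : ℕ) :
    Ex l (ind (-(m + 2 * m * J)) (m + 2 * m * J)) 0 ≤
      (1 + 2 * J) * Ex l (ind (-(m + b)) (m + b)) 0 := by
  have hm : 0 ≤ m := hb.trans hbm
  induction J with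
  | zero =>
    have := Ex_mono l (ind (-(m + 2 * m * (0 : ℕ))) (m + 2 * m * (0 : ℕ))) (ind (-(m + b)) (m + b))
      (fun y => ind_mono (by simp; linarith) (by simp; linarith) y) 0
    simpa using this
  | succ J ih =>
    set p : ℝ := m + 2 * m * J with hp
    have hpm : m ≤ p := by
      have : (0 : ℝ) ≤ 2 * m * J := by positivity
      linarith
    have hq : m + 2 * m * ((J + 1 : ℕ) : ℝ) = p + 2 * m := by
      push_cast
      rw [hp]; ring
    rw [hq]
    have hR : Ex l (ind p (p + 2 * m)) 0 ≤ Ex l (ind (-(m + b)) (m + b)) 0 := by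
      have := reflection ((p + m) / 2 - b / 2) ((p + m) / 2 + b / 2) p (p + 2 * m)
        (by linarith) l (fun x hx => ⟨(hl x hx).1, by linarith [(hl x hx).2]⟩) 0 (by linarith)
      have e1 : 2 * ((p + m) / 2 - b / 2) - (p + 2 * m) = -(m + b) := by ring
      have e2 : 2 * ((p + m) / 2 + b / 2) - p = m + b := by ring
      rw [e1, e2] at this
      exact this
    have hR' : Ex l (ind (-(p + 2 * m)) (-p)) 0 ≤ Ex l (ind (-(m + b)) (m + b)) 0 := by
      have h := Ex_refl l (ind (-(p + 2 * m)) (-p)) 0 0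
      have : Ex l (ind (-(p + 2 * m)) (-p)) 0 = Ex l (ind p (p + 2 * m)) 0 := by
        rw [h]
        have e0 : (0 : ℝ) - 0 = 0 := by ring
        rw [e0]
        congr 1
        funext y
        rw [ind_refl]
        congr 1 <;> ring
      rw [this]
      exact hR
    have hpt : ∀ y, ind (-(p + 2 * m)) (p + 2 * m) y ≤
        ind (-p) p y + (ind p (p + 2 * m) y + ind (-(p + 2 * m)) (-p) y) := by
      intro y
      have n1 := ind_nonneg (-p) p y
      have n2 := ind_nonneg p (p + 2 * m) y
      have n3 := ind_nonneg (-(p + 2 * m)) (-p) y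
      by_cases h : -(p + 2 * m) ≤ y ∧ y ≤ p + 2 * m
      · have h1 := ind_le_one (-(p + 2 * m)) (p + 2 * m) y
        by_cases h2 : y < -p
        · rw [ind_one h.1 h2.le]; linarith
        · by_cases h3 : p < y
          · rw [ind_one h3.le h.2]; linarith
          · push Not at h2 h3
            have : ind (-p) p y = 1 := ind_one h2 h3
            linarith
      · have : ind (-(p + 2 * m)) (p + 2 * m) y = 0 := by
          unfold ind; rw [if_neg h]
        linarith
    have h5 := Ex_mono l _ _ hpt 0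
    rw [Ex_add, Ex_add] at h5
    push_cast
    nlinarith [h5, ih, hR, hR']

theorem small_ball_sorted (l : List ℝ) (m b : ℝ) (hb : 0 ≤ b) (hbm : b ≤ m) (hm : 0 < m)
    (hm1 : m ≤ 1) (hl : ∀ x ∈ l, 0 ≤ x ∧ x ≤ b) (hs : (l.map (fun b => b ^ 2)).sum ≤ 1) :
    3 * m / 40 ≤ Ex (b :: l) (ind (-m) m) 0 := by
  have hhalf : Ex l (ind (-(m + b)) (m + b)) 0 / 2 ≤ Ex (b :: l) (ind (-m) m) 0 := by
    rw [Ex_cons]
    have e1 : (0 : ℝ) - b = 0 + (-b) := by ring
    rw [e1, Ex_shift, Ex_shift, ← Ex_add]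
    have := Ex_mono l (ind (-(m + b)) (m + b))
      (fun y => ind (-m) m (y + b) + ind (-m) m (y + -b)) (fun y => ?_) 0
    · linarith
    · have n1 := ind_nonneg (-m) m (y + b)
      have n2 := ind_nonneg (-m) m (y + -b)
      have h1 := ind_le_one (-(m + b)) (m + b) y
      by_cases h : -(m + b) ≤ y ∧ y ≤ m + b
      · by_cases h0 : 0 ≤ y
        · have : ind (-m) m (y + -b) = 1 := ind_one (by linarith) (by linarith [h.2])
          linarith
        · push Not at h0
          have : ind (-m) m (y + b) = 1 := ind_one (by linarith [h.1]) (by linarith)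
          linarith
      · have : ind (-(m + b)) (m + b) y = 0 := by
          unfold ind; rw [if_neg h]
        linarith
  -- Chebyshev
  have hch : 3 / 4 ≤ Ex l (ind (-2) 2) 0 := by
    have h1 : ∀ y : ℝ, (1 : ℝ) ≤ ind (-2) 2 y + 1 / 4 * y ^ 2 := by
      intro y
      by_cases h : -2 ≤ y ∧ y ≤ 2
      · have : ind (-2) 2 y = 1 := ind_one h.1 h.2
        nlinarith [sq_nonneg y]
      · have hn := ind_nonneg (-2) 2 y
        have : 4 ≤ y ^ 2 := by
          by_cases h1 : -2 ≤ y
          · have : 2 < y := by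
              by_contra hc; push Not at hc; exact h ⟨h1, hc⟩
            nlinarith
          · push Not at h1
            nlinarith
        linarith
    have h2 := Ex_mono l (fun _ => 1) _ h1 0
    rw [Ex_const, Ex_add, Ex_smul, Ex_sq] at h2
    nlinarith
  set J : ℕ := ⌈1 / m⌉₊ with hJ
  have hJ1 : 1 / m ≤ (J : ℝ) := Nat.le_ceil _
  have hJ2 : (J : ℝ) < 1 / m + 1 := Nat.ceil_lt_add_one (by positivity)
  have hmJ : 1 ≤ m * J := by
    have := mul_le_mul_of_nonneg_left hJ1 hm.le
    rwa [mul_one_div_cancel hm.ne'] at this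
  have hmJ2 : m * J ≤ 1 + m := by
    have := mul_le_mul_of_nonneg_left hJ2.le hm.le
    rw [mul_add, mul_one_div_cancel hm.ne'] at this
    linarith
  have hc := cover l m b hb hbm hl J
  have h6 := Ex_mono l (ind (-2) 2) (ind (-(m + 2 * m * J)) (m + 2 * m * J))
    (fun y => ind_mono (by nlinarith) (by nlinarith) y) 0
  set Q := Ex l (ind (-(m + b)) (m + b)) 0 with hQ
  have hQ0 : 0 ≤ Q := by
    have := Ex_mono l (fun _ => 0) (ind (-(m + b)) (m + b)) (fun y => ind_nonneg _ _ _) 0
    rwa [Ex_const] at this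
  have h7 : 3 / 4 ≤ (1 + 2 * J) * Q := by linarith
  have h8 : 3 / 4 * m ≤ 5 * Q := by
    have : m * ((1 + 2 * J) * Q) = (m + 2 * (m * J)) * Q := by ring
    have h9 : m * (3 / 4) ≤ m * ((1 + 2 * J) * Q) := mul_le_mul_of_nonneg_left h7 hm.le
    rw [this] at h9
    have h10 : (m + 2 * (m * J)) * Q ≤ 5 * Q :=
      mul_le_mul_of_nonneg_right (by linarith) hQ0
    linarith
  linarith

theorem small_ball (l : List ℝ) (m : ℝ) (hm : 0 < m) (hm1 : m ≤ 1)
    (hl : ∀ x ∈ l, 0 ≤ x ∧ x ≤ m) (hs : (l.map (fun b => b ^ 2)).sum ≤ 1) :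
    3 * m / 40 ≤ Ex l (ind (-m) m) 0 := by
  have hp : (l.insertionSort (fun x y => x ≥ y)).Perm l := List.perm_insertionSort _ l
  have hsrt : (l.insertionSort (fun x y => x ≥ y)).Pairwise (fun x y => x ≥ y) :=
    List.pairwise_insertionSort _ l
  rcases hcase : l.insertionSort (fun x y => x ≥ y) with _ | ⟨b, t⟩
  · rw [hcase] at hp
    have : l = [] := by simpa using hp.symm
    subst this
    show _ ≤ ind (-m) m 0
    rw [ind_one (by linarith) hm.le]
    linarith
  · rw [hcase] at hp hsrt
    rw [← Ex_perm hp]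
    have hb := hl b (hp.subset (by simp))
    have ht : ∀ x ∈ t, 0 ≤ x ∧ x ≤ b := fun x hx =>
      ⟨(hl x (hp.subset (by simp [hx]))).1, (List.pairwise_cons.1 hsrt).1 x hx⟩
    refine small_ball_sorted t m b hb.1 hb.2 hm hm1 ht ?_
    have h1 : ((b :: t).map (fun b => b ^ 2)).sum = (l.map (fun b => b ^ 2)).sum :=
      (hp.map _).sum_eq
    rw [List.map_cons, List.sum_cons] at h1
    nlinarith [sq_nonneg b]

end Pool.Agent.X100.KH
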