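import Pool.Agent.X100.KH.Base

/-! # Averaging the largest and the smallest weight -/

set_option autoImplicit false

namespace Pool.Agent.X100.KH

/-- four times the gain of averaging -/
noncomputable def gain (T U V y : ℝ) : ℝ :=
  |y + T| ^ 3 + |y - T| ^ 3 + 2 * |y| ^ 3 - |y + U| ^ 3 - |y - U| ^ 3 - |y + V| ^ 3 - |y - V| ^ 3

theorem gain_neg (T U V y : ℝ) : gain T U V (-y) = gain T U V y := by
  unfold gain
  have h1 : ∀ t : ℝ, |-y + t| = |y - t| := fun t => by rw [← abs_neg]; congr 1; ring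
  have h2 : ∀ t : ℝ, |-y - t| = |y + t| := fun t => by rw [← abs_neg]; congr 1; ring
  rw [h1, h1, h1, h2, h2, h2, abs_neg]
  ring

theorem k_big (y t : ℝ) (hy : 0 ≤ y) (h : y ≤ t) :
    |y + t| ^ 3 + |y - t| ^ 3 = 2 * t ^ 3 + 6 * t * y ^ 2 := by
  rw [abs_of_nonneg (by linarith), abs_of_nonpos (by linarith)]
  ring

theorem k_small (y t : ℝ) (ht : 0 ≤ t) (h : t ≤ y) :
    |y + t| ^ 3 + |y - t| ^ 3 = 2 * y ^ 3 + 6 * y * t ^ 2 := by
  rw [abs_of_nonneg (by linarith), abs_of_nonneg (by linarith)]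
  ring

theorem k_ge (y t : ℝ) (hy : 0 ≤ y) (ht : 0 ≤ t) :
    2 * y ^ 3 + 6 * y * t ^ 2 ≤ |y + t| ^ 3 + |y - t| ^ 3 := by
  rcases le_total t y with h | h
  · rw [k_small y t ht h]
  · rw [k_big y t hy h]
    have : 2 * t ^ 3 + 6 * t * y ^ 2 - (2 * y ^ 3 + 6 * y * t ^ 2) = 2 * (t - y) ^ 3 := by ring
    have h2 : 0 ≤ (t - y) ^ 3 := pow_nonneg (by linarith) 3
    linarith

/-- the middle case -/
theorem gain_mid (T U V y : ℝ) (hV : 0 ≤ V) (hUT : U ≤ T) (hy : 0 ≤ y)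
    (hVy : V ≤ y) (hyU : y ≤ U) (hT : T ^ 2 = U ^ 2 + V ^ 2) :
    gain T U V y = 2 * (T - U) * (T ^ 2 + T * U + U ^ 2 + 3 * y ^ 2 - 3 * y * (T + U)) := by
  unfold gain
  have h1 := k_big y T hy (by linarith)
  have h2 := k_big y U hy hyU
  have h3 := k_small y V hV hVy
  have h4 : |y| = y := abs_of_nonneg hy
  have h5 : V ^ 2 = T ^ 2 - U ^ 2 := by linarith
  rw [h4]
  rw [h5] at h3
  linear_combination h1 - h2 - h3

theorem gain_low (T U V y : ℝ) (hV : 0 ≤ V) (hVU : V ≤ U) (hUT : U ≤ T) (hy : 0 ≤ y)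
    (hyV : y ≤ V) (hT : T ^ 2 = U ^ 2 + V ^ 2) :
    gain T U V V ≤ gain T U V y := by
  unfold gain
  have h1 := k_big y T hy (by linarith)
  have h2 := k_big y U hy (by linarith)
  have h3 := k_big y V hy hyV
  have h1' := k_big V T hV (by linarith)
  have h2' := k_big V U hV hVU
  have h3' := k_big V V hV le_rfl
  have h4 : |y| = y := abs_of_nonneg hy
  have h4' : |V| = V := abs_of_nonneg hV
  rw [h4, h4']
  have hTle : T ≤ U + V / 2 := by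
    have : T ^ 2 ≤ (U + V / 2) ^ 2 := by nlinarith
    exact le_of_sq_le_sq this (by linarith)
  have key : 0 ≤ (V - y) * (3 * (V + y) * (U + V - T) - (V ^ 2 + V * y + y ^ 2)) := by
    apply mul_nonneg (by linarith)
    have : 3 * (V + y) * (V / 2) ≤ 3 * (V + y) * (U + V - T) :=
      mul_le_mul_of_nonneg_left (by linarith) (by linarith)
    nlinarith [mul_nonneg hy hV, mul_nonneg hy (sub_nonneg.2 hyV)]
  nlinarith [key]

theorem gain_nonneg_aux (T U V y : ℝ) (hV : 0 ≤ V) (hVU : V ≤ U) (hUT : U ≤ T) (hy : 0 ≤ y)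
    (hT : T ^ 2 = U ^ 2 + V ^ 2) : 0 ≤ gain T U V y := by
  have hmid : ∀ y, 0 ≤ y → V ≤ y → y ≤ U → 0 ≤ gain T U V y := by
    intro y hy h1 h2
    rw [gain_mid T U V y hV hUT hy h1 h2 hT]
    apply mul_nonneg (by linarith)
    nlinarith [sq_nonneg (T - y), sq_nonneg (U - y), mul_nonneg (sub_nonneg.2 (h2.trans hUT))
      (sub_nonneg.2 h2)]
  rcases le_total U y with h | h
  · unfold gain
    have h1 := k_ge y T hy (by linarith)
    have h2 := k_small y U (by linarith) h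
    have h3 := k_small y V hV (by linarith)
    have h4 : |y| = y := abs_of_nonneg hy
    rw [h4]
    have h5 : T ^ 2 = U ^ 2 + V ^ 2 := hT
    rw [h5] at h1
    nlinarith [h1, h2, h3]
  · rcases le_total V y with h' | h'
    · exact hmid y hy h' h
    · exact (hmid V hV le_rfl hVU).trans (gain_low T U V y hV hVU hUT hy h' hT)

theorem gain_nonneg (T U V y : ℝ) (hV : 0 ≤ V) (hVU : V ≤ U) (hUT : U ≤ T)
    (hT : T ^ 2 = U ^ 2 + V ^ 2) : 0 ≤ gain T U V y := by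
  rcases le_total 0 y with h | h
  · exact gain_nonneg_aux T U V y hV hVU hUT h hT
  · rw [← gain_neg]
    exact gain_nonneg_aux T U V (-y) hV hVU hUT (by linarith) hT

/-- the polynomial inequality, scaled -/
theorem poly (r : ℝ) (h0 : 0 ≤ r) (h1 : r ≤ 1) :
    (7 + 6 * r ^ 2 + r ^ 3 + (1 - r ^ 2) ^ 2 / 16) ^ 2 ≤ (2 + 2 * r ^ 2) * (5 + 2 * r ^ 2) ^ 2 := by
  have e : (2 + 2 * r ^ 2) * (5 + 2 * r ^ 2) ^ 2 -
      (7 + 6 * r ^ 2 + r ^ 3 + (1 - r ^ 2) ^ 2 / 16) ^ 2 =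
      (1 - r) ^ 2 * (1 + 2 * r + 9 * r ^ 2 + 2 * r ^ 3 + 7 * r ^ 4 -
        (1 + r) ^ 2 * (7 + 6 * r ^ 2 + r ^ 3) / 8 - (1 + r) ^ 4 * (1 - r) ^ 2 / 256) := by ring
  have hq : 0 ≤ 1 + 2 * r + 9 * r ^ 2 + 2 * r ^ 3 + 7 * r ^ 4 -
        (1 + r) ^ 2 * (7 + 6 * r ^ 2 + r ^ 3) / 8 - (1 + r) ^ 4 * (1 - r) ^ 2 / 256 := by
    have a1 : (1 + r) ^ 4 * (1 - r) ^ 2 ≤ 4 := by
      have : (1 + r) ^ 4 * (1 - r) ^ 2 = (1 + r) ^ 2 * (1 - r ^ 2) ^ 2 := by ring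
      rw [this]
      have b1 : (1 + r) ^ 2 ≤ 4 := by nlinarith
      have b2 : (1 - r ^ 2) ^ 2 ≤ 1 := by nlinarith [sq_nonneg r, mul_nonneg h0 (sub_nonneg.2 h1)]
      calc (1 + r) ^ 2 * (1 - r ^ 2) ^ 2 ≤ 4 * 1 :=
            mul_le_mul b1 b2 (sq_nonneg _) (by norm_num)
        _ = 4 := by norm_num
    have p2 : 0 ≤ r ^ 2 := by positivity
    have p3 : 0 ≤ r ^ 3 := by positivity
    have p4 : 0 ≤ r ^ 4 := by positivity
    have p5 : r ^ 5 ≤ r ^ 2 := by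
      have : r ^ 5 = r ^ 2 * r ^ 3 := by ring
      rw [this]
      have : r ^ 3 ≤ 1 := pow_le_one₀ h0 h1
      nlinarith
    have e2 : (1 + r) ^ 2 * (7 + 6 * r ^ 2 + r ^ 3) =
      7 + 14 * r + 13 * r ^ 2 + 13 * r ^ 3 + 8 * r ^ 4 + r ^ 5 := by ring
    rw [e2]
    linarith
  have := mul_nonneg (sq_nonneg (1 - r)) hq
  linarith

theorem poly2 (a b T : ℝ) (ha : 0 < a) (hb : 0 ≤ b) (hba : b ≤ a) (hT0 : 0 ≤ T)
    (hT : T ^ 2 = 2 * a ^ 2 + 2 * b ^ 2) :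
    7 * a ^ 3 + 6 * a * b ^ 2 + b ^ 3 + (a ^ 2 - b ^ 2) ^ 2 / (16 * a) ≤
      T * (5 * a ^ 2 + 2 * b ^ 2) := by
  set r := b / a with hr
  have hbr : b = a * r := by rw [hr]; field_simp
  have hr0 : 0 ≤ r := by positivity
  have hr1 : r ≤ 1 := by rw [hr, div_le_one ha]; exact hba
  have hp := poly r hr0 hr1
  refine le_of_sq_le_sq ?_ (by positivity)
  have e1 : 7 * a ^ 3 + 6 * a * b ^ 2 + b ^ 3 + (a ^ 2 - b ^ 2) ^ 2 / (16 * a) =
      a ^ 3 * (7 + 6 * r ^ 2 + r ^ 3 + (1 - r ^ 2) ^ 2 / 16) := by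
    rw [hbr]
    field_simp
    try ring
  have e2 : (T * (5 * a ^ 2 + 2 * b ^ 2)) ^ 2 =
      (a ^ 3) ^ 2 * ((2 + 2 * r ^ 2) * (5 + 2 * r ^ 2) ^ 2) := by
    rw [mul_pow, hT, hbr]; ring
  rw [e1, e2, mul_pow]
  exact mul_le_mul_of_nonneg_left hp (by positivity)

theorem gain_lower (a b T y : ℝ) (ha : 0 < a) (hb : 0 ≤ b) (hba : b ≤ a) (hT0 : 0 ≤ T)
    (hT : T ^ 2 = 2 * a ^ 2 + 2 * b ^ 2) (hy : 0 ≤ y) (hya : y ≤ a) :
    (a ^ 2 - b ^ 2) ^ 2 / (8 * a) ≤ gain T (a + b) (a - b) y := by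
  have hT' : T ^ 2 = (a + b) ^ 2 + (a - b) ^ 2 := by rw [hT]; ring
  have hV : 0 ≤ a - b := by linarith
  have hVU : a - b ≤ a + b := by linarith
  have hUT : a + b ≤ T := by
    refine le_of_sq_le_sq ?_ hT0
    rw [hT']; nlinarith [sq_nonneg (a - b)]
  -- value at `a`
  have hA : (a ^ 2 - b ^ 2) ^ 2 / (8 * a) ≤ gain T (a + b) (a - b) a := by
    rw [gain_mid T (a + b) (a - b) a hV hUT ha.le (by linarith) (by linarith) hT']
    have hp := poly2 a b T ha hb hba hT0 hT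
    have e : (a ^ 2 - b ^ 2) ^ 2 / (8 * a) = 2 * ((a ^ 2 - b ^ 2) ^ 2 / (16 * a)) := by
      field_simp
      try norm_num
      try ring
    rw [e]
    have e3 : 2 * (T - (a + b)) * (T ^ 2 + T * (a + b) + (a + b) ^ 2 + 3 * a ^ 2 -
        3 * a * (T + (a + b))) = 2 * (T * (5 * a ^ 2 + 2 * b ^ 2) -
          (7 * a ^ 3 + 6 * a * b ^ 2 + b ^ 3)) + 2 * (T - 3 * a) * (T ^ 2 - (2 * a ^ 2 + 2 * b ^ 2)) := by
      ring
    rw [e3, hT]
    linarith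
  have hmid : ∀ y, a - b ≤ y → y ≤ a → 0 ≤ y →
      gain T (a + b) (a - b) a ≤ gain T (a + b) (a - b) y := by
    intro y h1 h2 h0
    rw [gain_mid T (a + b) (a - b) a hV hUT ha.le (by linarith) (by linarith) hT',
      gain_mid T (a + b) (a - b) y hV hUT h0 h1 (by linarith) hT']
    apply mul_le_mul_of_nonneg_left _ (by linarith)
    nlinarith [mul_nonneg (sub_nonneg.2 h2) (by linarith : (0 : ℝ) ≤ T + (a + b) - (a + y))]
  rcases le_total (a - b) y with h | h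
  · exact hA.trans (hmid y h hya hy)
  · exact (hA.trans (hmid (a - b) le_rfl (by linarith) hV)).trans
      (gain_low T (a + b) (a - b) y hV hVU hUT hy h hT')

end Pool.Agent.X100.KH
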