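import Pool.Agent.X100.KH.Gain

/-! # Stability of the third moment inequality -/

set_option autoImplicit false

namespace Pool.Agent.X100.KH

open Finset

/-- the sign of a Boolean -/
noncomputable def sgn (b : Bool) : ℝ := if b then 1 else -1

/-- `E |∑ a i ε i| ^ 3`, the average over the `2 ^ n` sign vectors -/
noncomputable def third {n : ℕ} (a : Fin n → ℝ) : ℝ :=
  (∑ ε : Fin n → Bool, |∑ i, a i * sgn (ε i)| ^ 3) / 2 ^ n

theorem mom_eq {n : ℕ} (a : Fin n → ℝ) (f : ℝ → ℝ) (x : ℝ) :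
    (∑ ε : Fin n → Bool, f (x + ∑ i, a i * sgn (ε i))) / 2 ^ n = Ex (List.ofFn a) f x := by
  induction n generalizing x with
  | zero => simp [Ex]
  | succ n ih =>
    rw [List.ofFn_succ, Ex_cons, ← ih (fun i => a i.succ) (x + a 0),
      ← ih (fun i => a i.succ) (x - a 0)]
    rw [← (Fin.consEquiv (fun _ : Fin (n + 1) => Bool)).sum_comp, Fintype.sum_prod_type,
      Fintype.sum_bool]
    have h1 : ∀ y : Fin n → Bool, ∑ i : Fin (n + 1), a i *
        sgn ((Fin.consEquiv (fun _ : Fin (n + 1) => Bool)) (true, y) i) =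
        a 0 + ∑ i : Fin n, a i.succ * sgn (y i) := by
      intro y
      rw [Fin.sum_univ_succ]
      simp [Fin.consEquiv, sgn]
    have h2 : ∀ y : Fin n → Bool, ∑ i : Fin (n + 1), a i *
        sgn ((Fin.consEquiv (fun _ : Fin (n + 1) => Bool)) (false, y) i) =
        -a 0 + ∑ i : Fin n, a i.succ * sgn (y i) := by
      intro y
      rw [Fin.sum_univ_succ]
      simp [Fin.consEquiv, sgn]
    have e1 : ∀ s : ℝ, x + (a 0 + s) = x + a 0 + s := fun s => by ring
    have e2 : ∀ s : ℝ, x + (-a 0 + s) = x - a 0 + s := fun s => by ring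
    simp only [h1, h2, e1, e2]
    rw [pow_succ]
    field_simp

theorem third_eq {n : ℕ} (a : Fin n → ℝ) :
    third a = Ex (List.ofFn a) (fun y => |y| ^ 3) 0 := by
  rw [← mom_eq]
  unfold third
  simp only [zero_add]

theorem step (a b c : ℝ) (l : List ℝ) (ha : 0 < a) (ha1 : a ≤ 1) (hb : 0 ≤ b) (hba : b ≤ a)
    (hc : 0 ≤ c) (hc2 : 2 * c ^ 2 = a ^ 2 + b ^ 2) (hl : ∀ x ∈ l, 0 ≤ x ∧ x ≤ a)
    (hs : (l.map (fun b => b ^ 2)).sum ≤ 1) :
    Ex (a :: b :: l) (fun y => |y| ^ 3) 0 + 3 / 1280 * (a ^ 2 - b ^ 2) ^ 2 ≤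
      Ex (c :: c :: l) (fun y => |y| ^ 3) 0 := by
  set f : ℝ → ℝ := fun y => |y| ^ 3 with hf
  set T : ℝ := 2 * c with hT
  have hT2 : T ^ 2 = 2 * a ^ 2 + 2 * b ^ 2 := by rw [hT]; nlinarith
  have hT' : T ^ 2 = (a + b) ^ 2 + (a - b) ^ 2 := by rw [hT2]; ring
  have hT0 : 0 ≤ T := by positivity
  have hUT : a + b ≤ T := by
    refine le_of_sq_le_sq ?_ hT0
    rw [hT']; nlinarith [sq_nonneg (a - b)]
  have h : Ex l (fun y => gain T (a + b) (a - b) y + (f (y + (a + b)) + (f (y + -(a + b)) +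
      (f (y + (a - b)) + f (y + -(a - b)))))) 0 =
      Ex l (fun y => f (y + T) + (f (y + -T) + 2 * f y)) 0 := by
    congr 1
    funext y
    simp only [hf, gain, ← sub_eq_add_neg]
    ring
  rw [Ex_add, Ex_add, Ex_add, Ex_add, Ex_add, Ex_add, Ex_smul, ← Ex_shift, ← Ex_shift, ← Ex_shift,
    ← Ex_shift, ← Ex_shift, ← Ex_shift] at h
  have hK : 0 ≤ (a ^ 2 - b ^ 2) ^ 2 / (8 * a) := by positivity
  have hpt : ∀ y, (a ^ 2 - b ^ 2) ^ 2 / (8 * a) * ind (-a) a y ≤ gain T (a + b) (a - b) y := by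
    intro y
    by_cases hy : -a ≤ y ∧ y ≤ a
    · rw [ind_one hy.1 hy.2, mul_one]
      rcases le_total 0 y with h0 | h0
      · exact gain_lower a b T y ha hb hba hT0 hT2 h0 hy.2
      · rw [← gain_neg]
        exact gain_lower a b T (-y) ha hb hba hT0 hT2 (by linarith) (by linarith [hy.1])
    · have : ind (-a) a y = 0 := by
        unfold ind; rw [if_neg hy]
      rw [this, mul_zero]
      exact gain_nonneg T (a + b) (a - b) y (by linarith) (by linarith) hUT hT'
  have h2 := Ex_mono l _ _ hpt 0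
  rw [Ex_smul] at h2
  have h3 := small_ball l a ha ha1 hl hs
  have h4 : (a ^ 2 - b ^ 2) ^ 2 / (8 * a) * (3 * a / 40) = 3 / 320 * (a ^ 2 - b ^ 2) ^ 2 := by
    field_simp
    try ring
  have h5 := mul_le_mul_of_nonneg_left h3 hK
  rw [h4] at h5
  simp only [Ex_cons]
  have e1 : (0 : ℝ) + a + b = 0 + (a + b) := by ring
  have e2 : (0 : ℝ) + a - b = 0 + (a - b) := by ring
  have e3 : (0 : ℝ) - a + b = 0 + -(a - b) := by ring
  have e4 : (0 : ℝ) - a - b = 0 + -(a + b) := by ring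
  have e5 : (0 : ℝ) + c + c = 0 + T := by rw [hT]; ring
  have e6 : (0 : ℝ) + c - c = 0 := by ring
  have e7 : (0 : ℝ) - c + c = 0 := by ring
  have e8 : (0 : ℝ) - c - c = 0 + -T := by rw [hT]; ring
  rw [e1, e2, e3, e4, e5, e6, e7, e8]
  linarith

theorem split {n : ℕ} (g : Fin n → ℝ) (i j : Fin n) (hij : i ≠ j) :
    third g = Ex (|g i| :: |g j| :: (((univ.erase i).erase j).toList.map (fun k => |g k|)))
      (fun y => |y| ^ 3) 0 := by
  rw [third_eq, ← Ex_abs, List.ofFn_eq_map, List.map_map]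
  have hp : (List.finRange n).Perm (i :: j :: ((univ.erase i).erase j).toList) := by
    refine (List.perm_ext_iff_of_nodup (List.nodup_finRange n) ?_).2 ?_
    · rw [List.nodup_cons, List.nodup_cons]
      refine ⟨?_, ?_, Finset.nodup_toList _⟩
      · simp [hij]
      · simp
    · intro k
      simp only [List.mem_finRange, List.mem_cons, Finset.mem_toList, Finset.mem_erase,
        Finset.mem_univ, and_true, true_iff]
      tauto
  rw [Ex_perm (hp.map _)]
  rfl

theorem sum_split {n : ℕ} (F : Fin n → ℝ) (i j : Fin n) (hij : i ≠ j) :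
    ∑ k, F k = F i + (F j + ∑ k ∈ (univ.erase i).erase j, F k) := by
  rw [Finset.add_sum_erase _ _ (Finset.mem_erase.2 ⟨hij.symm, Finset.mem_univ j⟩),
    Finset.add_sum_erase _ _ (Finset.mem_univ i)]

theorem third_cont (n : ℕ) : Continuous (fun a : Fin n → ℝ => third a + 1 / 256 * ∑ i, a i ^ 4) := by
  unfold third
  fun_prop

theorem key (n : ℕ) (hn : 1 ≤ n) (a : Fin n → ℝ) (ha : ∑ i, a i ^ 2 = 1) :
    third a + 1 / 256 * ∑ i, a i ^ 4 ≤
      third (fun _ : Fin n => (Real.sqrt n)⁻¹) + 1 / 256 * (1 / n) := by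
  have hn0 : (0 : ℝ) < n := by exact_mod_cast hn
  have : Nonempty (Fin n) := ⟨⟨0, hn⟩⟩
  set K : Set (Fin n → ℝ) := {a | ∑ i, a i ^ 2 = 1} with hK
  have hle1 : ∀ g ∈ K, ∀ i, |g i| ≤ 1 := by
    intro g hg i
    have h1 : g i ^ 2 ≤ ∑ i, g i ^ 2 :=
      Finset.single_le_sum (f := fun i => g i ^ 2) (fun i _ => sq_nonneg _) (Finset.mem_univ i)
    have hg' : ∑ i, g i ^ 2 = 1 := hg
    rw [hg'] at h1
    exact (sq_le_one_iff_abs_le_one _).1 h1
  have hcomp : IsCompact K := by
    refine (isCompact_closedBall (0 : Fin n → ℝ) 1).of_isClosed_subset ?_ ?_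
    · exact isClosed_eq (by fun_prop) continuous_const
    · intro g hg
      rw [mem_closedBall_zero_iff, pi_norm_le_iff_of_nonneg (by norm_num)]
      intro i
      rw [Real.norm_eq_abs]
      exact hle1 g hg i
  obtain ⟨m, hmK, hmax⟩ := hcomp.exists_isMaxOn ⟨a, ha⟩ (third_cont n).continuousOn
  have h1 := hmax (show a ∈ K from ha)
  simp only [Set.mem_setOf_eq] at h1
  refine h1.trans ?_
  obtain ⟨i, hi⟩ := Finite.exists_max (fun i => |m i|)
  obtain ⟨j, hj⟩ := Finite.exists_min (fun i => |m i|)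
  have hm1 : ∑ i, m i ^ 2 = 1 := hmK
  by_cases heq : |m j| = |m i|
  · have hall : ∀ k, |m k| = |m i| := fun k => le_antisymm (hi k) (heq ▸ hj k)
    have hsq : ∀ k, m k ^ 2 = m i ^ 2 := fun k => by rw [← sq_abs, hall k, sq_abs]
    have h2 : m i ^ 2 = 1 / n := by
      rw [Finset.sum_congr rfl (fun k _ => hsq k), Finset.sum_const, Finset.card_univ,
        Fintype.card_fin, nsmul_eq_mul] at hm1
      field_simp
      linarith
    have h3 : |m i| = (Real.sqrt n)⁻¹ := by
      rw [← Real.sqrt_sq_eq_abs, h2, one_div, Real.sqrt_inv]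
    have h4 : third m = third (fun _ : Fin n => (Real.sqrt n)⁻¹) := by
      rw [third_eq, third_eq, ← Ex_abs, List.ofFn_eq_map, List.map_map, List.ofFn_eq_map]
      congr 1
      apply List.map_congr_left
      intro k _
      simp only [Function.comp]
      rw [hall k, h3]
    have h5 : ∑ i, m i ^ 4 = 1 / n := by
      have : ∀ k, m k ^ 4 = (1 / n) ^ 2 := fun k => by
        rw [← h2, ← hsq k]; ring
      rw [Finset.sum_congr rfl (fun k _ => this k), Finset.sum_const, Finset.card_univ,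
        Fintype.card_fin, nsmul_eq_mul]
      field_simp
    rw [h4, h5]
  · exfalso
    have hlt : |m j| < |m i| := lt_of_le_of_ne (hi j) heq
    have hij : i ≠ j := by
      rintro rfl; exact heq rfl
    set c : ℝ := Real.sqrt ((|m i| ^ 2 + |m j| ^ 2) / 2) with hc
    have hc0 : 0 ≤ c := Real.sqrt_nonneg _
    have hc2 : c ^ 2 = (|m i| ^ 2 + |m j| ^ 2) / 2 := Real.sq_sqrt (by positivity)
    set m' : Fin n → ℝ := fun k => if k = i ∨ k = j then c else m k with hm'
    have hmi : m' i = c := by simp [hm']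
    have hmj : m' j = c := by simp [hm']
    have hmk : ∀ k ∈ (univ.erase i).erase j, m' k = m k := by
      intro k hk
      simp only [Finset.mem_erase, Finset.mem_univ, and_true] at hk
      simp [hm', hk.1, hk.2]
    have hsum2 : ∑ k, m' k ^ 2 = 1 := by
      rw [← hm1, sum_split _ i j hij, sum_split (fun k => m k ^ 2) i j hij, hmi, hmj,
        Finset.sum_congr rfl (fun k hk => by rw [hmk k hk]), hc2, sq_abs, sq_abs]
      ring
    have h2 := hmax (show m' ∈ K from hsum2)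
    simp only [Set.mem_setOf_eq] at h2
    have hs4 : ∑ k ∈ (univ.erase i).erase j, m' k ^ 4 = ∑ k ∈ (univ.erase i).erase j, m k ^ 4 :=
      Finset.sum_congr rfl (fun k hk => by rw [hmk k hk])
    have hsum4 : ∑ k, m k ^ 4 - ∑ k, m' k ^ 4 = (|m i| ^ 2 - |m j| ^ 2) ^ 2 / 2 := by
      rw [sum_split (fun k => m k ^ 4) i j hij, sum_split (fun k => m' k ^ 4) i j hij, hmi, hmj,
        hs4]
      have : c ^ 4 = ((|m i| ^ 2 + |m j| ^ 2) / 2) ^ 2 := by rw [← hc2]; ring
      rw [this, sq_abs, sq_abs]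
      ring
    have h3 : third m' = Ex (c :: c :: (((univ.erase i).erase j).toList.map (fun k => |m k|)))
        (fun y => |y| ^ 3) 0 := by
      rw [split m' i j hij, hmi, hmj, abs_of_nonneg hc0]
      congr 3
      apply List.map_congr_left
      intro k hk
      rw [hmk k (Finset.mem_toList.1 hk)]
    have h4 := step |m i| |m j| c (((univ.erase i).erase j).toList.map (fun k => |m k|))
      (lt_of_le_of_lt (abs_nonneg _) hlt) (hle1 m hmK i) (abs_nonneg _) hlt.le hc0
      (by rw [hc2]; ring)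
      (by
        intro x hx
        obtain ⟨k, _, rfl⟩ := List.mem_map.1 hx
        exact ⟨abs_nonneg _, hi k⟩)
      (by
        rw [List.map_map, Finset.sum_map_toList]
        have h5 := sum_split (fun k => m k ^ 2) i j hij
        rw [hm1] at h5
        have h6 : ∑ k ∈ (univ.erase i).erase j, ((fun b : ℝ => b ^ 2) ∘ fun k => |m k|) k =
            ∑ k ∈ (univ.erase i).erase j, m k ^ 2 :=
          Finset.sum_congr rfl (fun k _ => by simp [sq_abs])
        rw [h6]
        nlinarith [sq_nonneg (m i), sq_nonneg (m j)])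
    rw [← h3, ← split m i j hij] at h4
    have hpos : 0 < (|m i| ^ 2 - |m j| ^ 2) ^ 2 := by
      have : |m j| ^ 2 < |m i| ^ 2 := by nlinarith [abs_nonneg (m j), abs_nonneg (m i)]
      exact pow_pos (by linarith) 2
    linarith

theorem main (n : ℕ) (hn : 1 ≤ n) (a : Fin n → ℝ) (ha : ∑ i, a i ^ 2 = 1) :
    third a ≤ third (fun _ : Fin n => (Real.sqrt n)⁻¹) -
      1 / 256 * ∑ i, (a i ^ 2 - (n : ℝ)⁻¹) ^ 2 := by
  have hn0 : (0 : ℝ) < n := by exact_mod_cast hn
  have h := key n hn a ha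
  have h2 : ∑ i, (a i ^ 2 - (n : ℝ)⁻¹) ^ 2 = ∑ i, a i ^ 4 - 1 / n := by
    have : ∀ i, (a i ^ 2 - (n : ℝ)⁻¹) ^ 2 = a i ^ 4 - 2 * (n : ℝ)⁻¹ * a i ^ 2 + ((n : ℝ)⁻¹) ^ 2 :=
      fun i => by ring
    rw [Finset.sum_congr rfl (fun i _ => this i), Finset.sum_add_distrib, Finset.sum_sub_distrib,
      ← Finset.mul_sum, ha, Finset.sum_const, Finset.card_univ, Fintype.card_fin, nsmul_eq_mul]
    field_simp
    ring
  rw [h2]
  linarith

end Pool.Agent.X100.KH
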